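import Pool.Agent.F155W.Shatter

/-! # The bound for families on a threshold surface (MP_f155e9_co) -/

open Finset

namespace Pool.Agent.F155W

variable {α : Type*} [DecidableEq α] [Fintype α]

/-- Positive weights: the members of `F` are minimal sets of weight at least `c`. -/
theorem bound_pos {u : α → ℝ} (hu : ∀ x, 0 < u x) {c : ℝ} {s : ℕ}
    (hs : 2 * s ≤ Fintype.card α + 1) {F : Finset (Finset α)}
    (hF : ∀ B ∈ F, c ≤ ∑ y ∈ B, u y ∧ ∀ x ∈ B, ∑ y ∈ B, u y - u x < c)
    (hc : ∀ A ∈ F, ∀ B ∈ F, A ≠ B → (A \ B).card ≤ s ∨ (B \ A).card ≤ s) :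
    F.card ≤ (Fintype.card α).choose s := by
  classical
  set l : List α := (univ : Finset α).toList.insertionSort (fun a b => u b ≤ u a) with hl
  have hperm : l.Perm (univ : Finset α).toList := List.perm_insertionSort _ _
  have hnd : l.Nodup := hperm.nodup_iff.2 (Finset.nodup_toList _)
  have hsort : l.Pairwise (fun a b => u b ≤ u a) := by
    have : Std.Total (fun a b : α => u b ≤ u a) := ⟨fun a b => le_total _ _⟩
    have : IsTrans α (fun a b : α => u b ≤ u a) := ⟨fun a b d h1 h2 => h2.trans h1⟩
    exact List.pairwise_insertionSort _ _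
  have hmem : l.toFinset = univ := by
    ext x
    simp [hperm.mem_iff]
  have hlen : l.length = Fintype.card α := by
    rw [hperm.length_eq, Finset.length_toList, Finset.card_univ]
  set P : Finset α → Prop := fun S => S ∈ F with hP
  have hcrit : Crit u l.toFinset c P := fun S _ hS => hF S hS
  have e1 : F.card = (l.toFinset.powerset.filter (fun S => P S)).card := by
    congr 1
    ext S
    simp [hP, hmem]
  have e2 : (l.toFinset.powerset.filter (fun S => P S)).card =
      (l.toFinset.powerset.filter (fun M => OS l M P)).card := by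
    convert (OS_count hnd P).symm
  rw [e1, e2, ← hlen]
  refine le_trans (card_le_card ?_) (ballot_count hnd s (by rw [hlen]; exact hs))
  intro M hM
  obtain ⟨h1, h2⟩ := mem_filter.1 hM
  refine mem_filter.2 ⟨h1, ?_, ?_⟩
  · intro t ht
    obtain ⟨X, hX, hd, h3⟩ := OS_suffix hnd ht h2
    have ht2 : t.toFinset ⊆ l.toFinset := by
      intro y hy
      rw [List.mem_toFinset] at hy ⊢
      exact ht.subset hy
    have hcr := hcrit.section ht2 hX hd
    obtain ⟨A, B, hA, hB, -, -, h4, h5⟩ :=
      pair (ht.sublist.nodup hnd) (hsort.sublist ht.sublist) (fun y _ => hu y) hcr hcr h3 h3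
    have h6 : (A \ B).card + (B \ A).card ≤ t.toFinset.card := by
      rw [← card_union_of_disjoint (disjoint_sdiff_sdiff)]
      exact card_le_card (union_subset (sdiff_subset.trans hA) (sdiff_subset.trans hB))
    have h7 := List.toFinset_card_le t
    omega
  · obtain ⟨A, B, hA, hB, hPA, hPB, h3, h4⟩ :=
      pair hnd hsort (fun y _ => hu y) hcrit hcrit h2 h2
    have h5 : M ∩ l.toFinset = M := by rw [hmem, inter_univ]
    rw [h5] at h3 h4
    by_cases hAB : A = B
    · subst hAB
      simp at h3
      simp [h3]
    · rcases hc A hPA B hPB hAB with h | h <;> omega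

end Pool.Agent.F155W
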