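import Mathlib

/-! # Order shattering and thresholds (MP_f155e9_co)

`OS l M P`: the coordinates of the list `l` are decided in this order (first entry outermost); at a
coordinate of `M` both values must be possible, at the others one of the two. -/

open Finset

namespace Pool.Agent.F155W

variable {α : Type*} [DecidableEq α]

/-- `M` is order-shattered by the family `P` of subsets of `l` (outermost coordinate first). -/
def OS : List α → Finset α → (Finset α → Prop) → Prop
  | [], _, P => P ∅
  | x :: l, M, P =>
      if x ∈ M then OS l M P ∧ OS l M (fun S => P (insert x S))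
      else OS l M P ∨ OS l M (fun S => P (insert x S))

lemma OS_congr {l : List α} {M M' : Finset α} (h : ∀ x ∈ l, (x ∈ M ↔ x ∈ M'))
    (P : Finset α → Prop) : OS l M P ↔ OS l M' P := by
  induction l generalizing P with
  | nil => exact Iff.rfl
  | cons x l ih =>
    have hx := h x (by simp)
    have ih' := fun P => ih (fun y hy => h y (by simp [hy])) P
    by_cases hM : x ∈ M
    · have hM' := hx.1 hM
      simp only [OS, if_pos hM, if_pos hM']
      rw [ih', ih']
    · have hM' := fun h' => hM (hx.2 h')
      simp only [OS, if_neg hM, if_neg hM']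
      rw [ih', ih']

open Classical in
/-- The number of order-shattered sets is the number of members. -/
lemma OS_count {l : List α} (hl : l.Nodup) (P : Finset α → Prop) :
    (l.toFinset.powerset.filter (fun M => OS l M P)).card =
      (l.toFinset.powerset.filter (fun S => P S)).card := by
  induction l generalizing P with
  | nil =>
    simp only [OS, List.toFinset_nil, powerset_empty]
    by_cases h : P ∅
    · rw [filter_true_of_mem (fun _ _ => h), filter_true_of_mem]
      intro S hS
      rw [mem_singleton] at hS
      rwa [hS]
    · rw [filter_false_of_mem (fun _ _ => h), filter_false_of_mem]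
      intro S hS
      rw [mem_singleton] at hS
      rwa [hS]
  | cons x l ih =>
    have hx : x ∉ l.toFinset := by
      simpa using (List.nodup_cons.1 hl).1
    have hl' := (List.nodup_cons.1 hl).2
    have key : ∀ R : Finset α → Prop,
        ((x :: l).toFinset.powerset.filter (fun M => R M)).card =
          (l.toFinset.powerset.filter (fun M => R M)).card +
            (l.toFinset.powerset.filter (fun M => R (insert x M))).card := by
      intro R
      rw [List.toFinset_cons, powerset_insert, filter_union, card_union_of_disjoint, filter_image,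
        card_image_of_injOn]
      · intro A hA B hB h
        have hA' : x ∉ A := fun h' => hx (mem_powerset.1 (mem_filter.1 hA).1 h')
        have hB' : x ∉ B := fun h' => hx (mem_powerset.1 (mem_filter.1 hB).1 h')
        have h2 := congrArg (fun S => S.erase x) h
        simpa [erase_insert hA', erase_insert hB'] using h2
      · rw [Finset.disjoint_left]
        intro A hA hA2
        obtain ⟨B, hB, rfl⟩ := mem_image.1 (mem_filter.1 hA2).1
        exact hx (mem_powerset.1 (mem_filter.1 hA).1 (mem_insert_self x B))
    rw [key (fun M => OS (x :: l) M P), key P, ← ih hl' P, ← ih hl' (fun S => P (insert x S))]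
    have e1 : (l.toFinset.powerset.filter (fun M => OS (x :: l) M P)) =
        (l.toFinset.powerset.filter (fun M => OS l M P)) ∪
          (l.toFinset.powerset.filter (fun M => OS l M (fun S => P (insert x S)))) := by
      ext M
      simp only [mem_filter, mem_union]
      constructor
      · rintro ⟨h1, h2⟩
        have hM : x ∉ M := fun h' => hx (mem_powerset.1 h1 h')
        rw [OS, if_neg hM] at h2
        rcases h2 with h2 | h2
        · exact Or.inl ⟨h1, h2⟩
        · exact Or.inr ⟨h1, h2⟩
      · rintro (⟨h1, h2⟩ | ⟨h1, h2⟩)
        · have hM : x ∉ M := fun h' => hx (mem_powerset.1 h1 h')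
          exact ⟨h1, by rw [OS, if_neg hM]; exact Or.inl h2⟩
        · have hM : x ∉ M := fun h' => hx (mem_powerset.1 h1 h')
          exact ⟨h1, by rw [OS, if_neg hM]; exact Or.inr h2⟩
    have e2 : (l.toFinset.powerset.filter (fun M => OS (x :: l) (insert x M) P)) =
        (l.toFinset.powerset.filter (fun M => OS l M P)) ∩
          (l.toFinset.powerset.filter (fun M => OS l M (fun S => P (insert x S)))) := by
      ext M
      simp only [mem_filter, mem_inter]
      have hc : ∀ Q : Finset α → Prop, OS l (insert x M) Q ↔ OS l M Q := by
        intro Q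
        apply OS_congr
        intro y hy
        have : y ≠ x := fun h => hx (by rw [← h]; simpa using hy)
        simp [this]
      rw [OS, if_pos (mem_insert_self x M), hc, hc]
      tauto
    rw [e1, e2, card_union_add_card_inter]

/-- A section of an order-shattering tree at a final segment. -/
lemma OS_suffix {l t : List α} (hl : l.Nodup) (ht : t <:+ l) {M : Finset α}
    {P : Finset α → Prop} (h : OS l M P) :
    ∃ X : Finset α, X ⊆ l.toFinset ∧ Disjoint X t.toFinset ∧ OS t M (fun S => P (X ∪ S)) := by
  induction l generalizing P with
  | nil =>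
    rw [List.suffix_nil] at ht
    subst ht
    exact ⟨∅, by simp, by simp, by simpa [OS] using h⟩
  | cons x l ih =>
    have hx : x ∉ l := (List.nodup_cons.1 hl).1
    have hl' := (List.nodup_cons.1 hl).2
    rcases List.suffix_cons_iff.1 ht with rfl | ht'
    · refine ⟨∅, by simp, by simp, ?_⟩
      have : (fun S => P (∅ ∪ S)) = P := by
        funext S
        rw [empty_union]
      rw [this]
      exact h
    · have h2 : OS l M P ∨ OS l M (fun S => P (insert x S)) := by
        by_cases hM : x ∈ M
        · rw [OS, if_pos hM] at h
          exact Or.inl h.1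
        · rw [OS, if_neg hM] at h
          exact h
      rcases h2 with h2 | h2
      · obtain ⟨X, hX, hd, h3⟩ := ih hl' ht' h2
        exact ⟨X, hX.trans (by intro y hy; simp at hy ⊢; exact Or.inr hy), hd, h3⟩
      · obtain ⟨X, hX, hd, h3⟩ := ih hl' ht' h2
        refine ⟨insert x X, ?_, ?_, ?_⟩
        · intro y hy
          rw [mem_insert] at hy
          rcases hy with rfl | hy
          · simp
          · have := hX hy
            simp at this ⊢
            exact Or.inr this
        · rw [disjoint_insert_left]
          refine ⟨?_, hd⟩
          rw [List.mem_toFinset]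
          exact fun h => hx (ht'.subset h)
        · have : (fun S => P (insert x X ∪ S)) = (fun S => P (insert x (X ∪ S))) := by
            funext S
            rw [insert_union]
          rw [this]
          exact h3

open Classical in
/-- The number of ballot sets of size at most `s`. -/
lemma ballot_count {l : List α} (hl : l.Nodup) (s : ℕ) (hs : 2 * s ≤ l.length + 1) :
    (l.toFinset.powerset.filter (fun M =>
      (∀ t : List α, t <:+ l → 2 * (M ∩ t.toFinset).card ≤ t.length) ∧ M.card ≤ s)).card ≤
      l.length.choose s := by
  induction l generalizing s with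
  | nil =>
    have h0 : s = 0 := by
      rw [List.length_nil] at hs
      omega
    subst h0
    refine (card_filter_le _ _).trans ?_
    simp
  | cons x l ih =>
    have hx : x ∉ l.toFinset := by
      simpa using (List.nodup_cons.1 hl).1
    have hl' := (List.nodup_cons.1 hl).2
    rcases s with _ | s
    · calc _ ≤ ({∅} : Finset (Finset α)).card := by
            apply card_le_card
            intro M hM
            have := (mem_filter.1 hM).2.2
            simpa using this
        _ = _ := by simp
    · rw [List.length_cons] at hs ⊢
      have step : ∀ r : ℕ, 2 * (r + 1) ≤ l.length + 1 →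
          ((x :: l).toFinset.powerset.filter (fun M =>
            (∀ t : List α, t <:+ (x :: l) → 2 * (M ∩ t.toFinset).card ≤ t.length) ∧
              M.card ≤ r + 1)).card ≤ (l.length + 1).choose (r + 1) := by
        intro r hr
        rw [Nat.choose_succ_succ']
        have h1 := ih hl' (r + 1) hr
        have h2 := ih hl' r (by omega)
        refine le_trans ?_ (Nat.add_le_add h2 h1)
        rw [← card_image_of_injOn (s := l.toFinset.powerset.filter (fun M =>
          (∀ t : List α, t <:+ l → 2 * (M ∩ t.toFinset).card ≤ t.length) ∧ M.card ≤ r))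
          (f := insert x)]
        · refine le_trans (card_le_card ?_) (card_union_le _ _)
          intro M hM
          obtain ⟨h3, h4, h5⟩ := mem_filter.1 hM
          rw [List.toFinset_cons] at h3
          rw [mem_union]
          by_cases hxM : x ∈ M
          · left
            refine mem_image.2 ⟨M.erase x, mem_filter.2 ⟨?_, ?_, ?_⟩, insert_erase hxM⟩
            · rw [mem_powerset]
              intro y hy
              have h6 := mem_powerset.1 h3 (mem_of_mem_erase hy)
              exact (mem_insert.1 h6).resolve_left (ne_of_mem_erase hy)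
            · intro t ht
              refine le_trans (Nat.mul_le_mul_left 2 (card_le_card ?_))
                (h4 t (ht.trans (List.suffix_cons x l)))
              exact inter_subset_inter_right (erase_subset x M)
            · rw [card_erase_of_mem hxM]
              omega
          · right
            refine mem_filter.2 ⟨?_, ?_, h5⟩
            · rw [mem_powerset]
              intro y hy
              have h6 := mem_powerset.1 h3 hy
              exact (mem_insert.1 h6).resolve_left (fun h => hxM (h ▸ hy))
            · intro t ht
              exact h4 t (ht.trans (List.suffix_cons x l))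
        · intro A hA B hB h
          have hA' : x ∉ A := fun h' => hx (mem_powerset.1 (mem_filter.1 hA).1 h')
          have hB' : x ∉ B := fun h' => hx (mem_powerset.1 (mem_filter.1 hB).1 h')
          have h2 := congrArg (fun S => S.erase x) h
          simpa [erase_insert hA', erase_insert hB'] using h2
      rcases Nat.lt_or_ge (l.length + 1) (2 * (s + 1)) with h | h
      · have hls : l.length = 2 * s := by omega
        rcases s with _ | s
        · have : l = [] := List.length_eq_zero_iff.1 (by omega)
          subst this
          calc _ ≤ ({∅} : Finset (Finset α)).card := by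
                apply card_le_card
                intro M hM
                obtain ⟨h3, h4, h5⟩ := mem_filter.1 hM
                have h6 := h4 [x] (List.suffix_refl _)
                have h7 : M ∩ [x].toFinset = M := by
                  apply inter_eq_left.2
                  exact mem_powerset.1 h3
                rw [h7] at h6
                have : M.card = 0 := by
                  simp at h6
                  omega
                simpa using this
            _ = _ := by simp
        · refine le_trans ?_ (le_trans (step s (by omega)) (le_of_eq ?_))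
          · apply card_le_card
            intro M hM
            obtain ⟨h3, h4, h5⟩ := mem_filter.1 hM
            refine mem_filter.2 ⟨h3, h4, ?_⟩
            have h6 := h4 (x :: l) (List.suffix_refl _)
            have h7 : M ∩ (x :: l).toFinset = M := inter_eq_left.2 (mem_powerset.1 h3)
            rw [h7, List.length_cons] at h6
            omega
          · rw [hls]
            exact (Nat.choose_symm_half (s + 1)).symm
      · exact step s h

/-- All members of `P` inside `L` are minimal sets of weight at least `c`. -/
def Crit (u : α → ℝ) (L : Finset α) (c : ℝ) (P : Finset α → Prop) : Prop :=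
  ∀ S ⊆ L, P S → c ≤ ∑ y ∈ S, u y ∧ ∀ x ∈ S, ∑ y ∈ S, u y - u x < c

omit [DecidableEq α] in
lemma Crit.mono {u : α → ℝ} {L L' : Finset α} {c : ℝ} {P : Finset α → Prop} (h : Crit u L c P)
    (hL : L' ⊆ L) : Crit u L' c P := fun S hS => h S (hS.trans hL)

lemma Crit.section {u : α → ℝ} {L E : Finset α} {c : ℝ} {P : Finset α → Prop}
    {L' : Finset α} (h : Crit u L c P) (hL : L' ⊆ L) (hE : E ⊆ L) (hd : Disjoint E L') :
    Crit u L' (c - ∑ y ∈ E, u y) (fun S => P (E ∪ S)) := by
  intro S hS hP
  have h1 := h (E ∪ S) (union_subset hE (hS.trans hL)) hP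
  have h2 : ∑ y ∈ E ∪ S, u y = ∑ y ∈ E, u y + ∑ y ∈ S, u y :=
    sum_union (hd.mono_right hS)
  rw [h2] at h1
  refine ⟨by linarith [h1.1], fun x hx => ?_⟩
  have := h1.2 x (mem_union_right E hx)
  linarith

/-- The outcome of walking down two trees with surplus `d`. -/
def Res (u : α → ℝ) (l : List α) (M : Finset α) (P Q : Finset α → Prop) (d : ℕ) : Prop :=
  (∃ S S' : Finset α, S ⊆ l.toFinset ∧ S' ⊆ l.toFinset ∧ P S ∧ Q S' ∧
    (M ∩ l.toFinset ⊆ S \ S') ∧ S'.card ≤ S.card + d ∧
    ∀ w : ℝ, (∀ y ∈ l, u y ≤ w) → ∀ m : ℝ, m ≤ w → (∀ y ∈ S, m ≤ u y) →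
      ∑ y ∈ S', u y + ((d : ℝ) + S.card - S'.card) * m ≤ ∑ y ∈ S, u y + d * w) ∨
  (∃ S S' : Finset α, S ⊆ l.toFinset ∧ S' ⊆ l.toFinset ∧ P S ∧ Q S' ∧
    (M ∩ l.toFinset).card ≤ (S \ S').card ∧ (M ∩ l.toFinset).card + d ≤ (S' \ S).card)

lemma Res.lift {u : α → ℝ} {x : α} {l : List α} {M E E' : Finset α} {P Q : Finset α → Prop}
    {d d' : ℕ} (hx : x ∉ l.toFinset) (hux : ∀ y ∈ l, u y ≤ u x)
    (hE : E ⊆ {x}) (hE' : E' ⊆ {x}) (hd : d' + E'.card = d + E.card)
    (hM : x ∈ M → E = {x} ∧ E' = ∅)
    (h : Res u l M (fun S => P (E ∪ S)) (fun S => Q (E' ∪ S)) d') :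
    Res u (x :: l) M P Q d := by
  have hEl : ∀ {S : Finset α}, S ⊆ l.toFinset → Disjoint E S := by
    intro S hS
    rw [Finset.disjoint_left]
    intro y hy hy2
    have := mem_singleton.1 (hE hy)
    subst this
    exact hx (hS hy2)
  have hEl' : ∀ {S : Finset α}, S ⊆ l.toFinset → Disjoint E' S := by
    intro S hS
    rw [Finset.disjoint_left]
    intro y hy hy2
    have := mem_singleton.1 (hE' hy)
    subst this
    exact hx (hS hy2)
  have hsub : ∀ {E S : Finset α}, E ⊆ {x} → S ⊆ l.toFinset → E ∪ S ⊆ (x :: l).toFinset := by
    intro E S h1 h2 y hy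
    rw [List.toFinset_cons, mem_insert]
    rcases mem_union.1 hy with h | h
    · exact Or.inl (mem_singleton.1 (h1 h))
    · exact Or.inr (h2 h)
  rcases h with ⟨S, S', hS, hS', hP, hQ, h1, h2, h3⟩ | ⟨S, S', hS, hS', hP, hQ, h1, h2⟩
  · left
    have c1 := card_union_of_disjoint (hEl hS)
    have c2 := card_union_of_disjoint (hEl' hS')
    refine ⟨E ∪ S, E' ∪ S', hsub hE hS, hsub hE' hS', hP, hQ, ?_, by omega, ?_⟩
    · intro y hy
      rw [List.toFinset_cons, mem_inter, mem_insert] at hy
      rcases hy with ⟨hy1, rfl | hy2⟩
      · obtain ⟨e1, e2⟩ := hM hy1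
        rw [e1, e2, mem_sdiff]
        refine ⟨by simp, ?_⟩
        simp only [empty_union]
        exact fun h => hx (hS' h)
      · have h4 := mem_sdiff.1 (h1 (mem_inter.2 ⟨hy1, hy2⟩))
        rw [mem_sdiff]
        refine ⟨mem_union_right _ h4.1, fun h => ?_⟩
        rcases mem_union.1 h with h | h
        · have := mem_singleton.1 (hE' h)
          subst this
          exact hx hy2
        · exact h4.2 h
    · intro w hw m hm hmS
      have s1 : ∑ y ∈ E ∪ S, u y = E.card * u x + ∑ y ∈ S, u y := by
        rw [sum_union (hEl hS)]
        congr 1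
        rw [sum_congr rfl (fun y hy => by rw [mem_singleton.1 (hE hy)] : ∀ y ∈ E, u y = u x),
          sum_const, nsmul_eq_mul]
      have s2 : ∑ y ∈ E' ∪ S', u y = E'.card * u x + ∑ y ∈ S', u y := by
        rw [sum_union (hEl' hS')]
        congr 1
        rw [sum_congr rfl (fun y hy => by rw [mem_singleton.1 (hE' hy)] : ∀ y ∈ E', u y = u x),
          sum_const, nsmul_eq_mul]
      have hxw : u x ≤ w := hw x (by simp)
      have hdr : (d' : ℝ) + E'.card = d + E.card := by exact_mod_cast hd
      rcases (E ∪ S).eq_empty_or_nonempty with he | ⟨z, hz⟩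
      · rw [he, card_empty, sum_empty]
        have h5 : ∑ y ∈ E' ∪ S', u y ≤ (E' ∪ S').card * w := by
          rw [← nsmul_eq_mul, ← sum_const]
          apply sum_le_sum
          intro y hy
          apply hw
          have := hsub hE' hS' hy
          simpa using this
        have h6 : ((E' ∪ S').card : ℝ) ≤ d := by
          have h7 : (E ∪ S).card = 0 := by rw [he, card_empty]
          have : (E' ∪ S').card ≤ d := by omega
          exact_mod_cast this
        push_cast
        nlinarith
      · have hmx : m ≤ u x := by
          refine (hmS z hz).trans ?_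
          rcases mem_union.1 hz with h | h
          · rw [mem_singleton.1 (hE h)]
          · exact hux z (by simpa using hS h)
        have h5 := h3 (u x) hux m hmx (fun y hy => hmS y (mem_union_right _ hy))
        rw [s1, s2, c1, c2]
        push_cast
        have hd0 : (0 : ℝ) ≤ d := Nat.cast_nonneg d
        have h6 : (d' : ℝ) = d + E.card - E'.card := by linarith
        rw [h6] at h5
        have h7 : (d : ℝ) * u x ≤ d * w := mul_le_mul_of_nonneg_left hxw hd0
        linarith
  · right
    have c3 : (E ∪ S) \ (E' ∪ S') = (E \ E') ∪ (S \ S') := by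
      ext y
      simp only [mem_sdiff, mem_union]
      have a1 : y ∈ E → y ∉ S' := fun h h' => (Finset.disjoint_left.1 (hEl hS') h) h'
      have a2 : y ∈ E' → y ∉ S := fun h h' => (Finset.disjoint_left.1 (hEl' hS) h) h'
      tauto
    have c4 : (E' ∪ S') \ (E ∪ S) = (E' \ E) ∪ (S' \ S) := by
      ext y
      simp only [mem_sdiff, mem_union]
      have a1 : y ∈ E → y ∉ S' := fun h h' => (Finset.disjoint_left.1 (hEl hS') h) h'
      have a2 : y ∈ E' → y ∉ S := fun h h' => (Finset.disjoint_left.1 (hEl' hS) h) h'
      tauto
    have c5 : ((E ∪ S) \ (E' ∪ S')).card = (E \ E').card + (S \ S').card := by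
      rw [c3, card_union_of_disjoint]
      exact (hEl (sdiff_subset.trans hS)).mono_left sdiff_subset
    have c6 : ((E' ∪ S') \ (E ∪ S)).card = (E' \ E).card + (S' \ S).card := by
      rw [c4, card_union_of_disjoint]
      exact (hEl' (sdiff_subset.trans hS')).mono_left sdiff_subset
    have c7 : (E \ E').card + E'.card = (E' \ E).card + E.card := by
      have q1 := card_sdiff_add_card E E'
      have q2 := card_sdiff_add_card E' E
      rw [union_comm] at q2
      omega
    refine ⟨E ∪ S, E' ∪ S', hsub hE hS, hsub hE' hS', hP, hQ, ?_, ?_⟩
    · rw [c5]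
      by_cases hxM : x ∈ M
      · obtain ⟨e1, e2⟩ := hM hxM
        have : (M ∩ (x :: l).toFinset).card ≤ (M ∩ l.toFinset).card + 1 := by
          rw [List.toFinset_cons, inter_insert_of_mem hxM]
          exact card_insert_le _ _
        rw [e1, e2]
        simp only [sdiff_empty, card_singleton]
        omega
      · rw [List.toFinset_cons, inter_insert_of_notMem hxM]
        omega
    · rw [c6]
      by_cases hxM : x ∈ M
      · obtain ⟨e1, e2⟩ := hM hxM
        have : (M ∩ (x :: l).toFinset).card ≤ (M ∩ l.toFinset).card + 1 := by
          rw [List.toFinset_cons, inter_insert_of_mem hxM]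
          exact card_insert_le _ _
        rw [e1, e2] at hd ⊢
        simp only [card_singleton, card_empty] at hd
        simp only [empty_sdiff, card_empty]
        omega
      · rw [List.toFinset_cons, inter_insert_of_notMem hxM]
        omega

lemma pair_of_res {u : α → ℝ} {l : List α} {M : Finset α} {P Q : Finset α → Prop} {c c' : ℝ}
    (hpos : ∀ y ∈ l, 0 < u y) (hP : Crit u l.toFinset c P) (hQ : Crit u l.toFinset c' Q)
    (h1 : Res u l M P Q 0) (h2 : Res u l M Q P 0) :
    ∃ S S' : Finset α, S ⊆ l.toFinset ∧ S' ⊆ l.toFinset ∧ P S ∧ Q S' ∧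
      (M ∩ l.toFinset).card ≤ (S \ S').card ∧ (M ∩ l.toFinset).card ≤ (S' \ S).card := by
  have main : ∀ {P Q : Finset α → Prop} {c c' : ℝ}, Crit u l.toFinset c P →
      Crit u l.toFinset c' Q → c ≤ c' → Res u l M P Q 0 →
      ∃ S S' : Finset α, S ⊆ l.toFinset ∧ S' ⊆ l.toFinset ∧ P S ∧ Q S' ∧
      (M ∩ l.toFinset).card ≤ (S \ S').card ∧ (M ∩ l.toFinset).card ≤ (S' \ S).card := by
    intro P Q c c' hP hQ hcc h
    rcases h with ⟨S, S', hS, hS', hPS, hQS, h3, h4, h5⟩ | ⟨S, S', hS, hS', hPS, hQS, h3, h4⟩
    · have h6 : S'.card = S.card := by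
        by_contra hne
        have hlt : S'.card < S.card := lt_of_le_of_ne (by simpa using h4) hne
        obtain ⟨z, hz, hzmin⟩ := exists_min_image S u (card_pos.1 (by omega))
        have hb : ∀ y ∈ l, u y ≤ ∑ t ∈ l.toFinset, u t := by
          intro y hy
          exact single_le_sum (f := u) (fun t ht => (hpos t (by simpa using ht)).le)
            (by simpa using hy)
        have hzl : z ∈ l := by simpa using hS hz
        have h7 := h5 (∑ t ∈ l.toFinset, u t) hb (u z) (hb z hzl) hzmin
        have h8 : (S'.card : ℝ) + 1 ≤ S.card := by exact_mod_cast hlt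
        have h9 := hpos z hzl
        have h10 := (hP S hS hPS).2 z hz
        have h11 := (hQ S' hS' hQS).1
        push_cast at h7
        nlinarith
      have h7 := card_le_card h3
      exact ⟨S, S', hS, hS', hPS, hQS, h7, by rwa [← card_sdiff_comm h6.symm]⟩
    · exact ⟨S, S', hS, hS', hPS, hQS, h3, by simpa using h4⟩
  rcases le_total c c' with h | h
  · exact main hP hQ h h1
  · obtain ⟨S, S', a1, a2, a3, a4, a5, a6⟩ := main hQ hP h h2
    exact ⟨S', S, a2, a1, a4, a3, a6, a5⟩

theorem walk {u : α → ℝ} {l : List α} (hl : l.Nodup) (hs : l.Pairwise (fun a b => u b ≤ u a))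
    (hpos : ∀ y ∈ l, 0 < u y) {M : Finset α} {P Q : Finset α → Prop} {c c' : ℝ}
    (hP : Crit u l.toFinset c P) (hQ : Crit u l.toFinset c' Q) (d : ℕ)
    (h1 : OS l M P) (h2 : OS l M Q) : Res u l M P Q d := by
  induction l generalizing P Q c c' d with
  | nil =>
    left
    refine ⟨∅, ∅, by simp, by simp, h1, h2, by simp, by simp, ?_⟩
    intro w hw m hm _
    have hd0 : (0 : ℝ) ≤ d := Nat.cast_nonneg d
    simp only [sum_empty, card_empty]
    push_cast
    nlinarith
  | cons x l ih =>
    have hx : x ∉ l.toFinset := by
      simpa using (List.nodup_cons.1 hl).1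
    have hl' := (List.nodup_cons.1 hl).2
    have hux := (List.pairwise_cons.1 hs).1
    have hs' := (List.pairwise_cons.1 hs).2
    have hpos' : ∀ y ∈ l, 0 < u y := fun y hy => hpos y (by simp [hy])
    have hsub : l.toFinset ⊆ (x :: l).toFinset := by
      intro y hy
      rw [List.toFinset_cons]
      exact mem_insert_of_mem hy
    have hxs : ({x} : Finset α) ⊆ (x :: l).toFinset := by
      intro y hy
      rw [List.toFinset_cons, mem_singleton.1 hy]
      exact mem_insert_self _ _
    have hdis : Disjoint ({x} : Finset α) l.toFinset := by simpa using hx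
    have hPo := hP.section (E := ∅) hsub (by simp) (by simp)
    have hPi := hP.section (E := {x}) hsub hxs hdis
    have hQo := hQ.section (E := ∅) hsub (by simp) (by simp)
    have hQi := hQ.section (E := {x}) hsub hxs hdis
    have eo : ∀ R : Finset α → Prop, (fun S => R (∅ ∪ S)) = R := by
      intro R
      funext S
      rw [empty_union]
    have ei : ∀ R : Finset α → Prop, (fun S => R ({x} ∪ S)) = (fun S => R (insert x S)) := by
      intro R
      funext S
      rfl
    by_cases hM : x ∈ M
    · rw [OS, if_pos hM] at h1 h2
      refine Res.lift (E := {x}) (E' := ∅) (d' := d + 1) hx hux (by simp) (by simp) (by simp)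
        (fun _ => ⟨rfl, rfl⟩) ?_
      exact ih hl' hs' hpos' hPi hQo (d + 1) (by rw [ei]; exact h1.2) (by rw [eo]; exact h2.1)
    · rw [OS, if_neg hM] at h1 h2
      rcases h1 with h1 | h1
      · rcases h2 with h2 | h2
        · refine Res.lift (E := ∅) (E' := ∅) (d' := d) hx hux (by simp) (by simp) (by simp)
            (fun h => absurd h hM) ?_
          exact ih hl' hs' hpos' hPo hQo d (by rw [eo]; exact h1) (by rw [eo]; exact h2)
        · rcases d with _ | d
          · have g1 := ih hl' hs' hpos' hPo hQi 0 (by rw [eo]; exact h1) (by rw [ei]; exact h2)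
            have g2 := ih hl' hs' hpos' hQi hPo 0 (by rw [ei]; exact h2) (by rw [eo]; exact h1)
            obtain ⟨S, S', a1, a2, a3, a4, a5, a6⟩ := pair_of_res hpos' hPo hQi g1 g2
            right
            refine ⟨S, insert x S', a1.trans hsub, ?_, by simpa using a3, a4, ?_, ?_⟩
            · rw [List.toFinset_cons]
              exact insert_subset_insert x a2
            · rw [List.toFinset_cons, inter_insert_of_notMem hM]
              refine a5.trans (le_of_eq ?_)
              congr 1
              ext y
              simp only [mem_sdiff, mem_insert]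
              constructor
              · rintro ⟨b1, b2⟩
                refine ⟨b1, ?_⟩
                rintro (rfl | b3)
                · exact hx (a1 b1)
                · exact b2 b3
              · rintro ⟨b1, b2⟩
                exact ⟨b1, fun b3 => b2 (Or.inr b3)⟩
            · rw [List.toFinset_cons, inter_insert_of_notMem hM]
              refine a6.trans (card_le_card ?_)
              exact sdiff_subset_sdiff (subset_insert x S') (Subset.refl _)
          · refine Res.lift (E := ∅) (E' := {x}) (d' := d) hx hux (by simp) (by simp) (by simp)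
              (fun h => absurd h hM) ?_
            exact ih hl' hs' hpos' hPo hQi d (by rw [eo]; exact h1) (by rw [ei]; exact h2)
      · rcases h2 with h2 | h2
        · refine Res.lift (E := {x}) (E' := ∅) (d' := d + 1) hx hux (by simp) (by simp) (by simp)
            (fun h => absurd h hM) ?_
          exact ih hl' hs' hpos' hPi hQo (d + 1) (by rw [ei]; exact h1) (by rw [eo]; exact h2)
        · refine Res.lift (E := {x}) (E' := {x}) (d' := d) hx hux (by simp) (by simp) (by simp)
            (fun h => absurd h hM) ?_
          exact ih hl' hs' hpos' hPi hQi d (by rw [ei]; exact h1) (by rw [ei]; exact h2)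

/-- Lemma C: two trees with the same shattered set. -/
theorem pair {u : α → ℝ} {l : List α} (hl : l.Nodup) (hs : l.Pairwise (fun a b => u b ≤ u a))
    (hpos : ∀ y ∈ l, 0 < u y) {M : Finset α} {P Q : Finset α → Prop} {c c' : ℝ}
    (hP : Crit u l.toFinset c P) (hQ : Crit u l.toFinset c' Q)
    (h1 : OS l M P) (h2 : OS l M Q) :
    ∃ S S' : Finset α, S ⊆ l.toFinset ∧ S' ⊆ l.toFinset ∧ P S ∧ Q S' ∧
      (M ∩ l.toFinset).card ≤ (S \ S').card ∧ (M ∩ l.toFinset).card ≤ (S' \ S).card :=
  pair_of_res hpos hP hQ (walk hl hs hpos hP hQ 0 h1 h2) (walk hl hs hpos hQ hP 0 h2 h1)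

end Pool.Agent.F155W
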