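import Pool.Agent.F155W.Bound

/-! # Arbitrary signs and bounded diameter (MP_f155e9_co) -/

open Finset

namespace Pool.Agent.F155W

variable {α : Type*} [DecidableEq α] [Fintype α]

lemma sum_flip (v : α → ℝ) (B : Finset α) :
    ∑ y ∈ symmDiff B (univ.filter fun i => v i < 0), |v y| =
      ∑ y ∈ B, v y - ∑ y ∈ (univ.filter fun i => v i < 0), v y := by
  set N := (univ.filter fun i => v i < 0) with hN
  have h1 : ∑ y ∈ symmDiff B N, |v y| = ∑ y ∈ B \ N, |v y| + ∑ y ∈ N \ B, |v y| := by
    rw [symmDiff_def, sup_eq_union, sum_union]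
    exact disjoint_sdiff_sdiff
  have h2 : ∑ y ∈ B \ N, |v y| = ∑ y ∈ B \ N, v y := by
    apply sum_congr rfl
    intro y hy
    have : ¬ v y < 0 := by
      have := (mem_sdiff.1 hy).2
      simpa [hN] using this
    exact abs_of_nonneg (not_lt.1 this)
  have h3 : ∑ y ∈ N \ B, |v y| = - ∑ y ∈ N \ B, v y := by
    rw [← sum_neg_distrib]
    apply sum_congr rfl
    intro y hy
    have : v y < 0 := by
      have := (mem_sdiff.1 hy).1
      simpa [hN] using this
    exact abs_of_neg this
  have h4 := sum_sdiff_sub_sum_sdiff (s₁ := B) (s₂ := N) (f := v)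
  rw [h1, h2, h3]
  linarith

/-- Nonzero weights of any sign: every change of one coordinate which lowers the sum leads below
`c`. -/
theorem bound_signed {v : α → ℝ} (hv : ∀ x, v x ≠ 0) {c : ℝ} {s : ℕ}
    (hs : 2 * s ≤ Fintype.card α + 1) {F : Finset (Finset α)}
    (hF : ∀ B ∈ F, c ≤ ∑ y ∈ B, v y ∧
      ∀ x, ∑ y ∈ symmDiff B {x}, v y < ∑ y ∈ B, v y → ∑ y ∈ symmDiff B {x}, v y < c)
    (hd : ∀ A ∈ F, ∀ B ∈ F, (symmDiff A B).card ≤ 2 * s + 1) :
    F.card ≤ (Fintype.card α).choose s := by
  set N := (univ.filter fun i => v i < 0) with hN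
  have hinj : Function.Injective (fun B : Finset α => symmDiff B N) :=
    symmDiff_left_injective N
  rw [← card_image_of_injective F hinj]
  refine bound_pos (u := fun y => |v y|) (fun x => abs_pos.2 (hv x))
    (c := c - ∑ y ∈ N, v y) hs ?_ ?_
  · intro B' hB'
    obtain ⟨B, hB, rfl⟩ := mem_image.1 hB'
    obtain ⟨h1, h2⟩ := hF B hB
    have h3 := sum_flip v B
    rw [← hN] at h3
    refine ⟨by rw [h3]; linarith, fun x hx => ?_⟩
    have h4 := sum_flip v (symmDiff B {x})
    rw [← hN] at h4
    have h5 : symmDiff (symmDiff B {x}) N = (symmDiff B N).erase x := by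
      rw [symmDiff_assoc, symmDiff_comm {x} N, ← symmDiff_assoc]
      ext y
      simp only [mem_symmDiff, mem_singleton, mem_erase]
      by_cases hy : y = x
      · subst hy
        have h6 := hx
        rw [mem_symmDiff] at h6
        tauto
      · tauto
    have h6 : ∑ y ∈ (symmDiff B N).erase x, |v y| = ∑ y ∈ symmDiff B N, |v y| - |v x| := by
      have := sum_erase_add (symmDiff B N) (fun y => |v y|) hx
      linarith
    have h7 : 0 < |v x| := abs_pos.2 (hv x)
    rw [h5, h6, h3] at h4
    have h8 := h2 x (by linarith)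
    rw [h3]
    linarith
  · intro A' hA' B' hB' _
    obtain ⟨A, hA, rfl⟩ := mem_image.1 hA'
    obtain ⟨B, hB, rfl⟩ := mem_image.1 hB'
    have h1 := hd A hA B hB
    have h2 : symmDiff (symmDiff A N) (symmDiff B N) = symmDiff A B := by
      rw [symmDiff_comm B N, symmDiff_assoc, ← symmDiff_assoc N N B, symmDiff_self, bot_symmDiff]
    have h3 : (symmDiff (symmDiff A N) (symmDiff B N)).card =
        (symmDiff A N \ symmDiff B N).card + (symmDiff B N \ symmDiff A N).card := by
      rw [symmDiff_def (symmDiff A N), sup_eq_union, card_union_of_disjoint]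
      exact disjoint_sdiff_sdiff
    rw [h2] at h3
    omega

/-- Littlewood–Offord form. -/
theorem bound_interval {v : α → ℝ} (hv : ∀ x, 1 ≤ |v x|) {c : ℝ} {s : ℕ}
    (hs : 2 * s ≤ Fintype.card α + 1) {F : Finset (Finset α)}
    (hF : ∀ B ∈ F, c ≤ ∑ y ∈ B, v y ∧ ∑ y ∈ B, v y < c + 1)
    (hd : ∀ A ∈ F, ∀ B ∈ F, (symmDiff A B).card ≤ 2 * s + 1) :
    F.card ≤ (Fintype.card α).choose s := by
  refine bound_signed (v := v) (c := c) (fun x h => ?_) hs (fun B hB => ⟨(hF B hB).1, ?_⟩) hd
  · have := hv x
    rw [h, abs_zero] at this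
    linarith
  · intro x hx
    have h1 := (hF B hB).2
    have h2 := hv x
    by_cases hxB : x ∈ B
    · have h3 : symmDiff B {x} = B.erase x := by
        ext y
        simp only [mem_symmDiff, mem_singleton, mem_erase]
        by_cases hy : y = x
        · subst hy; tauto
        · tauto
      rw [h3] at hx ⊢
      have h4 := sum_erase_add B v hxB
      have h5 : 0 < v x := by linarith
      rw [abs_of_pos h5] at h2
      linarith
    · have h3 : symmDiff B {x} = insert x B := by
        ext y
        simp only [mem_symmDiff, mem_singleton, mem_insert]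
        by_cases hy : y = x
        · subst hy; tauto
        · tauto
      rw [h3, sum_insert hxB] at hx ⊢
      have h5 : v x < 0 := by linarith
      rw [abs_of_neg h5] at h2
      linarith

end Pool.Agent.F155W
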